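import Pool.Agent.W780.BB.Stm
import Pool.Agent.W174.PG.Basic

/-!
# BB-GEN: almost all states are generic
-/

set_option autoImplicit false
set_option linter.all false

namespace Pool.Agent.W337.BB

open Complex Set MeasureTheory Filter Topology Pool.Agent.W780.PG Pool.Agent.W780.BB
open scoped Real ComplexConjugate

/-- real linear functional -/
noncomputable def reL (c : ℂ) : ℂ →ₗ[ℝ] ℝ where
  toFun z := (c * z).re
  map_add' x y := by rw [mul_add, Complex.add_re]
  map_smul' s x := by
    rw [Complex.real_smul, RingHom.id_apply, smul_eq_mul, ← mul_assoc, mul_comm c, mul_assoc,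
      Complex.re_ofReal_mul]

lemma null_line (c : ℂ) (hc : c ≠ 0) (b : ℝ) : volume {z : ℂ | (c * z).re = b} = 0 := by
  have hne : LinearMap.ker (reL c) ≠ ⊤ := by
    intro h
    have h1 : c⁻¹ ∈ LinearMap.ker (reL c) := by rw [h]; trivial
    rw [LinearMap.mem_ker] at h1
    have h2 : (c * c⁻¹).re = 0 := h1
    rw [mul_inv_cancel₀ hc] at h2
    norm_num at h2
  have h0 := Measure.addHaar_submodule (volume : Measure ℂ) (LinearMap.ker (reL c)) hne
  have h1 : {z : ℂ | (c * z).re = b} = (fun z => z + (-((b : ℂ) * c⁻¹))) ⁻¹' (LinearMap.ker (reL c) : Set ℂ) := by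
    ext z
    rw [mem_preimage, SetLike.mem_coe, LinearMap.mem_ker]
    show (c * z).re = b ↔ (c * (z + (-((b : ℂ) * c⁻¹)))).re = 0
    have h2 : c * (z + (-((b : ℂ) * c⁻¹))) = c * z - (b : ℂ) := by
      field_simp
      ring
    rw [h2, Complex.sub_re, Complex.ofReal_re, sub_eq_zero]
  rw [h1, measure_preimage_add_right]
  exact h0

lemma dir_cont : Continuous dir := by
  unfold dir
  fun_prop

lemma dir_ne (θ : ℝ) : dir θ ≠ 0 := exp_ne_zero _

/-- a measurable set with null slices is null -/
lemma null_slices (s : Set (ℂ × ℝ)) (hs : IsClosed s)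
    (h : ∀ θ : ℝ, volume {z : ℂ | (z, θ) ∈ s} = 0) : volume s = 0 := by
  rw [Measure.volume_eq_prod, Measure.prod_apply_symm hs.measurableSet]
  have : (fun y : ℝ => volume ((fun x : ℂ => (x, y)) ⁻¹' s)) = fun _ => 0 := by
    funext θ
    exact h θ
  rw [this, lintegral_zero]

/-- the composition of a side function with a folding is affine -/
lemma sf_fp_affine {n : ℕ} (p : Fin (n + 3) → ℂ) (hp : IsConvexPolygon p) (i : Fin (n + 3)) :
    ∀ w : List (Fin (n + 3)), ∃ (c : ℂ) (γ : ℝ), c ≠ 0 ∧ ∀ z, sf p i (fp p w z) = (c * z).re + γ := by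
  intro w
  induction w with
  | nil =>
    have hinj := Pool.Agent.W174.PG.inj hp
    have hne : p (i + 1) - p i ≠ 0 := by
      rw [sub_ne_zero]
      intro h
      exact Pool.Agent.W174.PG.i1 i (hinj h)
    refine ⟨-I * conj (p (i + 1) - p i), -((-I * conj (p (i + 1) - p i)) * p i).re, ?_, fun z => ?_⟩
    · refine mul_ne_zero (neg_ne_zero.2 I_ne_zero) ?_
      intro h
      exact hne ((map_eq_zero _).1 h)
    · show lft (p i) (p (i + 1)) z = _
      unfold lft
      have h1 : (conj (p (i + 1) - p i) * (z - p i)).im =
          (-I * (conj (p (i + 1) - p i) * (z - p i))).re := by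
        simp [Complex.mul_re]
      rw [h1, ← sub_eq_add_neg, ← Complex.sub_re]
      congr 1
      ring
  | cons j w ih =>
    obtain ⟨c, γ, hc, h⟩ := ih
    refine ⟨conj (c * dir (2 * tau p j)), (c * p j).re - (conj (c * dir (2 * tau p j)) * p j).re + γ,
      ?_, fun z => ?_⟩
    · intro h0
      exact mul_ne_zero hc (dir_ne _) ((map_eq_zero _).1 h0)
    · show sf p i (fp p w (rf p j z)) = _
      rw [h]
      unfold rf
      have h1 : (c * (p j + dir (2 * tau p j) * conj (z - p j))).re =
          (c * p j).re + (conj (c * dir (2 * tau p j)) * (z - p j)).re := by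
        rw [mul_add, Complex.add_re]
        congr 1
        rw [← Complex.conj_re (conj (c * dir (2 * tau p j)) * (z - p j))]
        simp only [map_mul, Complex.conj_conj, map_sub]
        congr 1
        ring
      rw [h1, mul_sub, Complex.sub_re]
      ring

theorem gen_th : S_Gen := by
  intro n p hp T
  rw [eventually_and]
  constructor
  · rw [ae_all_iff]
    intro w
    rw [ae_all_iff]
    intro j
    set a := uf p w (p j) with ha
    rw [ae_iff]
    simp only [not_not]
    set s : Set (ℂ × ℝ) := {x | (I * conj (dir x.2) * x.1).re = (I * conj (dir x.2) * a).re} with hs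
    have hcl : IsClosed s := by
      have hd : Continuous (fun x : ℂ × ℝ => I * conj (dir x.2)) :=
        continuous_const.mul (continuous_conj.comp (dir_cont.comp continuous_snd))
      refine isClosed_eq ?_ ?_
      · exact Complex.continuous_re.comp (hd.mul continuous_fst)
      · exact Complex.continuous_re.comp (hd.mul continuous_const)
    have hnull := null_slices s hcl (fun θ => by
      have := null_line (I * conj (dir θ)) (mul_ne_zero I_ne_zero (by
        intro h
        exact dir_ne θ ((map_eq_zero _).1 h))) ((I * conj (dir θ) * a).re)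
      exact this)
    refine measure_mono_null ?_ hnull
    rintro ⟨z, θ⟩ hz
    simp only [mem_setOf_eq] at hz
    rw [segment_eq_image'] at hz
    obtain ⟨t, _, hta⟩ := hz
    show (I * conj (dir θ) * z).re = (I * conj (dir θ) * a).re
    have h1 : a = z + ((t * T : ℝ) : ℂ) * dir θ := by
      rw [← hta]
      simp only [add_sub_cancel_left, Complex.real_smul]
      push_cast
      ring
    rw [h1]
    have h2 : I * conj (dir θ) * (z + ((t * T : ℝ) : ℂ) * dir θ) =
        I * conj (dir θ) * z + ((t * T : ℝ) : ℂ) * (I * (conj (dir θ) * dir θ)) := by ring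
    rw [h2, Complex.add_re, Complex.re_ofReal_mul]
    have h3 : (I * (conj (dir θ) * dir θ)).re = 0 := by
      rw [mul_comm (conj (dir θ)), Complex.mul_conj]
      simp
    rw [h3]
    ring
  · rw [ae_all_iff]
    intro w
    rw [ae_all_iff]
    intro i
    rw [ae_iff]
    simp only [ne_eq, not_not]
    obtain ⟨c, γ, hc, h⟩ := sf_fp_affine p hp i w
    have e : {x : ℂ × ℝ | sf p i (fp p w (x.1 + T • dir x.2)) = 0} =
        {x : ℂ × ℝ | (c * (x.1 + T • dir x.2)).re + γ = 0} := by
      ext x
      simp only [mem_setOf_eq, h]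
    show volume {x : ℂ × ℝ | sf p i (fp p w (x.1 + T • dir x.2)) = 0} = 0
    rw [e]
    refine null_slices _ ?_ fun θ => ?_
    · have hd : Continuous (fun x : ℂ × ℝ => x.1 + T • dir x.2) :=
        continuous_fst.add ((dir_cont.comp continuous_snd).const_smul T)
      exact isClosed_eq ((Complex.continuous_re.comp (continuous_const.mul hd)).add continuous_const)
        continuous_const
    · have h2 := null_line c hc (-γ - (c * (T • dir θ)).re)
      refine measure_mono_null ?_ h2
      intro z hz
      have hz' : (c * (z + T • dir θ)).re + γ = 0 := hz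
      rw [mul_add, Complex.add_re] at hz'
      show (c * z).re = _
      linarith

end Pool.Agent.W337.BB
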