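import Pool.Agent.W780.BB.Stm
import Pool.Agent.W174.PG.Basic
import Pool.Agent.W782.PG.Frame

/-!
# BB-TAU and BB-EXIT
-/

set_option autoImplicit false
set_option linter.all false

namespace Pool.Agent.W337.BB

open Complex Set MeasureTheory Filter Topology Pool.Agent.W780.PG Pool.Agent.W780.BB
open scoped Real ComplexConjugate

theorem tau_th : S_Tau := by
  intro n p hp i
  have h1 := Pool.Agent.W782.PG.prev_eq hp i
  have h2 := Pool.Agent.W782.PG.edge_ne' hp i
  have h3 : p i - p (i - 1) = (‖p i - p (i - 1)‖ : ℂ) * exp ((tau p (i - 1) : ℂ) * I) := by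
    unfold tau
    rw [sub_add_cancel]
    exact (Complex.norm_mul_exp_arg_mul_I _).symm
  have h4 : ‖p i - p (i - 1)‖ = ‖p (i - 1) - p i‖ := norm_sub_rev _ _
  have hn : (‖p (i - 1) - p i‖ : ℂ) ≠ 0 := by
    exact_mod_cast (norm_pos_iff.2 h2).ne'
  have h5 : exp ((tau p (i - 1) : ℂ) * I) = - exp (((tau p i + ang p i : ℝ) : ℂ) * I) := by
    rw [h4] at h3
    have h6 : p i - p (i - 1) = -(p (i - 1) - p i) := by ring
    rw [h6] at h3
    have h7 : (‖p (i - 1) - p i‖ : ℂ) * exp ((tau p (i - 1) : ℂ) * I) =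
        (‖p (i - 1) - p i‖ : ℂ) * (- exp (((tau p i + ang p i : ℝ) : ℂ) * I)) := by
      rw [← h3]
      conv_lhs => rw [h1]
      unfold tau
      ring
    exact mul_left_cancel₀ hn h7
  have h8 : exp (((tau p i + ang p i - π - tau p (i - 1) : ℝ) : ℂ) * I) = 1 := by
    have e1 : (((tau p i + ang p i - π - tau p (i - 1) : ℝ) : ℂ) * I) =
        ((tau p i + ang p i : ℝ) : ℂ) * I + (-(π : ℂ) * I + -((tau p (i - 1) : ℂ) * I)) := by
      push_cast; ring
    rw [e1, exp_add, exp_add, exp_neg ((tau p (i - 1) : ℂ) * I), h5]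
    have e2 : exp (-(π : ℂ) * I) = -1 := by
      rw [neg_mul, exp_neg, exp_pi_mul_I]; norm_num
    rw [e2]
    have := exp_ne_zero (((tau p i + ang p i : ℝ) : ℂ) * I)
    field_simp
  rw [Complex.exp_eq_one_iff] at h8
  obtain ⟨k, hk⟩ := h8
  have h9 : tau p i + ang p i - π - tau p (i - 1) = k * (2 * π) := by
    have h10 : ((tau p i + ang p i - π - tau p (i - 1) : ℝ) : ℂ) * I = ((k * (2 * π) : ℝ) : ℂ) * I := by
      rw [hk]; push_cast; ring
    have h11 := mul_right_cancel₀ I_ne_zero h10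
    exact_mod_cast h11
  exact ⟨k, by linarith⟩

theorem exit_th : S_Exit := by
  classical
  intro n p hp B A hB hA hne hseg
  obtain ⟨hinj, hop, hconv, hcl, hconvc, hnon, hclos, hpc, hsf, hfr, hsd, hnot, hside, hvert⟩ :=
    Pool.Agent.W174.PG.basic n p hp
  -- side functions of B
  have hB0 : ∀ j, 0 ≤ sf p j B := by
    intro j
    rcases hB with hB | ⟨k, hk, _⟩
    · exact (hB j).le
    · exact (hside k B hk).1 j
  have hBJ : ∀ j, sf p j A < 0 → 0 < sf p j B := by
    intro j hj
    rcases hB with hB | ⟨k, hk, hkA⟩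
    · exact hB j
    · have hjk : j ≠ k := by
        rintro rfl
        linarith
      exact (hside k B hk).2.2 j hjk
  set J : Finset (Fin (n + 3)) := Finset.univ.filter (fun j => sf p j A < 0) with hJ
  have hJne : J.Nonempty := by
    have h1 : ∃ j, ¬ 0 < lft (p j) (p (j + 1)) A := by
      by_contra hcon
      push Not at hcon
      exact hA hcon
    obtain ⟨j, hj⟩ := h1
    refine ⟨j, Finset.mem_filter.2 ⟨Finset.mem_univ _, ?_⟩⟩
    exact lt_of_le_of_ne (not_lt.1 hj) (hne j)
  obtain ⟨i, hi, hmin⟩ := Finset.exists_min_image J (fun j => sf p j B / (sf p j B - sf p j A)) hJne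
  have hiA : sf p i A < 0 := (Finset.mem_filter.1 hi).2
  have hiB := hBJ i hiA
  set t := sf p i B / (sf p i B - sf p i A) with ht
  have hd : 0 < sf p i B - sf p i A := by linarith
  have ht0 : 0 < t := div_pos hiB hd
  have ht1 : t < 1 := by rw [ht, div_lt_one hd]; linarith
  have hc : ∀ j, sf p j (cr p i B A) = (1 - t) * sf p j B + t * sf p j A := by
    intro j
    unfold sf cr
    exact Pool.Agent.W174.PG.lft_line _ _ _ _ _
  have hnn : ∀ j, 0 ≤ sf p j (cr p i B A) := by
    intro j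
    rw [hc j]
    rcases lt_or_ge (sf p j A) 0 with hj | hj
    · have hjB := hBJ j hj
      have hdj : 0 < sf p j B - sf p j A := by linarith
      have h1 := hmin j (Finset.mem_filter.2 ⟨Finset.mem_univ _, hj⟩)
      rw [le_div_iff₀ hdj] at h1
      linarith
    · have := hB0 j
      have h1 : 0 ≤ (1 - t) * sf p j B := mul_nonneg (by linarith) this
      have h2 : 0 ≤ t * sf p j A := mul_nonneg ht0.le hj
      linarith
  have hzero : sf p i (cr p i B A) = 0 := by
    rw [hc i, ht]
    field_simp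
    ring
  have hnv : ∀ k, cr p i B A ≠ p k := by
    intro k hk
    apply hseg k
    rw [← hk, segment_eq_image']
    exact ⟨t, ⟨ht0.le, ht1.le⟩, rfl⟩
  have h := hsd (cr p i B A) hnn i hzero hnv
  exact ⟨i, hiB, hiA, h.2⟩

end Pool.Agent.W337.BB
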